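import Pool.Agent.H66.AV.TF

/-!
# MP_0f8dca_lc, board avh_modules, row AST: the strings of the tables
-/

set_option autoImplicit false

namespace Pool.Agent.H99.AVH

open Pool.Agent.H66.AV Pool.Agent.H70.OQ

namespace AST

theorem nstr_len (n : ℕ) : ∀ (k : ℕ) (q : Nn n k), (nstr n k q).length + n = 2 ^ (k + 1) * n
  | 0, q => by
    have h : (nstr n 0 q).length = n := by
      change (List.ofFn (q : Fin n → Bool)).length = n
      rw [List.length_ofFn]
    rw [h]; ring
  | k + 1, q => by
    have h : (nstr n (k + 1) q).length = (nstr n k q.1).length + 2 ^ (k + 1) * n := by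
      change (nstr n k q.1 ++ List.ofFn (q.2 : Ys n k)).length = _
      rw [List.length_append, List.length_ofFn]
    have ih := nstr_len n k q.1
    rw [h, pow_succ 2 (k + 1)]
    linarith

theorem astr_len (n k : ℕ) (x : Fin n → Bool) (q : Nn n k) :
    (astr n k x q).length = 2 ^ (k + 1) * n + k + 2 := by
  have h := nstr_len n k q
  have h1 : (astr n k x q).length = (k + (n + 1)) + (nstr n k q).length + 1 := by
    simp only [astr, hdr, List.length_cons, List.length_append, List.length_replicate,
      List.length_ofFn]
  rw [h1]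
  omega

theorem rep_inj : ∀ (k k' : ℕ) (r r' : List Bool),
    List.replicate k true ++ false :: r = List.replicate k' true ++ false :: r' → k = k'
  | 0, 0, _, _, _ => rfl
  | 0, k' + 1, r, r', h => by simp [List.replicate_succ] at h
  | k + 1, 0, r, r', h => by simp [List.replicate_succ] at h
  | k + 1, k' + 1, r, r', h => by
    rw [List.replicate_succ, List.replicate_succ, List.cons_append, List.cons_append,
      List.cons.injEq] at h
    rw [rep_inj k k' r r' h.2]

theorem astr_eq (n k : ℕ) (x : Fin n → Bool) (q : Nn n k) : astr n k x q =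
    false :: (List.replicate k true ++ false :: (List.ofFn x ++ nstr n k q)) := by
  simp only [astr, hdr, List.append_assoc, List.cons_append]

end AST

open AST in
/-- Row AST. -/
theorem pf_AST (hPLT : Pool.Agent.H66.IP.T_PLT) : T_AST := by
  refine ⟨fun n k x q => ?_, fun n k x x' q q' h => ?_, fun n k n' k' x q x' q' h => ?_⟩
  · rw [astr_len]
    have : 1 ≤ 2 ^ (k + 1) := Nat.one_le_two_pow
    exact ⟨by nlinarith, le_rfl⟩
  · rw [astr_eq, astr_eq, List.cons.injEq] at h
    have h1 := List.append_inj h.2 (by simp)
    have h2 := (List.cons.injEq _ _ _ _ ▸ h1.2 : _ ∧ _).2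
    have h3 := List.append_inj h2 (by simp)
    exact ⟨List.ofFn_injective h3.1, hPLT.2.2.1 k n q q' h3.2⟩
  · have hk : k = k' := by
      rw [astr_eq, astr_eq, List.cons.injEq] at h
      exact rep_inj k k' _ _ h.2
    subst hk
    refine ⟨?_, rfl⟩
    have h1 := congrArg List.length h
    rw [astr_len, astr_len] at h1
    have h2 : 2 ^ (k + 1) * n = 2 ^ (k + 1) * n' := by omega
    exact Nat.eq_of_mul_eq_mul_left (by positivity) h2

end Pool.Agent.H99.AVH
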