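import Pool.Agent.H66.AV.TF

/-!
# MP_0f8dca_lc, board avh_modules, row NUM: numbers
-/

set_option autoImplicit false

namespace Pool.Agent.H99.AVH

open Pool.Agent.H66.AV

namespace NUM

theorem aux1 : ∀ m : ℕ, 12 ≤ m → 200 * (m + 1) ≤ 2 ^ m := by
  intro m hm
  induction m, hm using Nat.le_induction with
  | base => norm_num
  | succ m hm ih => rw [pow_succ]; omega

theorem aux2 (p q r : ℕ) (h : p + r ≤ q) : (2 : ℝ) ^ p * (1 / 2) ^ q ≤ (1 / 2) ^ r := by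
  have h1 : (1 / 2 : ℝ) ^ q ≤ (1 / 2) ^ (p + r) :=
    pow_le_pow_of_le_one (by norm_num) (by norm_num) h
  have h2 : (2 : ℝ) ^ p * (1 / 2) ^ p = 1 := by rw [← mul_pow]; norm_num
  calc (2 : ℝ) ^ p * (1 / 2) ^ q ≤ 2 ^ p * (1 / 2) ^ (p + r) := by gcongr
    _ = (2 ^ p * (1 / 2) ^ p) * (1 / 2) ^ r := by rw [pow_add]; ring
    _ = (1 / 2) ^ r := by rw [h2, one_mul]

theorem aux3 (n : ℕ) (hn : 10000 ≤ n) :
    (2 * (n / 64 + n / 32 + 4) + 1) * 4 ^ (n / 64 + n / 32 + 4) * 2 ^ (n / 16) ≤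
      2 ^ (n / 200 + 2 * (n / 64 + n / 32 + 4) + n / 16) := by
  have h1 : 2 * (n / 64 + n / 32 + 4) + 1 ≤ 2 ^ (n / 200) := by
    have := aux1 (n / 200) (by omega)
    have h2 : n < 200 * (n / 200 + 1) := by omega
    omega
  generalize n / 64 + n / 32 + 4 = a at h1
  have h4 : (4 : ℕ) ^ a = 2 ^ (2 * a) := by
    rw [pow_mul]; norm_num
  rw [h4, pow_add, pow_add]
  gcongr

end NUM

open NUM in
/-- Row NUM. -/
theorem pf_NUM : T_NUM := by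
  refine ⟨10000, fun n hn => ⟨?_, ?_, ?_, ?_⟩⟩
  · exact (aux3 n hn).trans (Nat.pow_le_pow_right (by norm_num) (by omega))
  · calc _ ≤ 2 ^ (n / 32) * 2 ^ (n / 200 + 2 * (n / 64 + n / 32 + 4) + n / 16) :=
          Nat.mul_le_mul_left _ (aux3 n hn)
      _ = 2 ^ (n / 32 + (n / 200 + 2 * (n / 64 + n / 32 + 4) + n / 16)) := by rw [← pow_add]
      _ ≤ 2 ^ (n / 4) := Nat.pow_le_pow_right (by norm_num) (by omega)
  · push_cast
    have h1 := aux2 (n / 32) (n / 64 + n / 32 + 4) (n / 64 + 4) (by omega)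
    have h2 : (1 / 2 : ℝ) ^ (n / 64 + 4) = (1 / 2) ^ (n / 64) * (1 / 16) := by
      rw [pow_add]; norm_num
    have h3 : (0 : ℝ) ≤ (1 / 2) ^ (n / 64) := by positivity
    rw [h2] at h1
    linarith
  · push_cast
    have hE : (1 : ℝ) / (1 / 2) ^ (n / 64) = 2 ^ (n / 64) := by
      rw [one_div_pow, one_div_one_div]
    have hB : (1 : ℝ) / 2 ^ (n / 32) = (1 / 2) ^ (n / 32) := by rw [one_div_pow]
    have e1 : (32 : ℝ) / ((1 / 2) ^ (n / 64)) ^ 2 = 2 ^ (5 + 2 * (n / 64)) := by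
      have : (32 : ℝ) / ((1 / 2) ^ (n / 64)) ^ 2 = 32 * (1 / (1 / 2) ^ (n / 64)) ^ 2 := by
        rw [one_div_pow ((1 / 2 : ℝ) ^ (n / 64)) 2]; ring
      rw [this, hE, pow_add, ← pow_mul, mul_comm (n / 64) 2]; norm_num
    have e2 : (2 : ℝ) / (1 / 2) ^ (n / 64) = 2 ^ (1 + n / 64) := by
      have : (2 : ℝ) / (1 / 2) ^ (n / 64) = 2 * (1 / (1 / 2) ^ (n / 64)) := by ring
      rw [this, hE, pow_add]; norm_num
    have e3 : (36 : ℝ) / ((1 / 2) ^ (n / 64)) ^ 2 + 4 / (1 / 2) ^ (n / 64) ≤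
        2 ^ (6 + 2 * (n / 64)) := by
      have h0 : (36 : ℝ) / ((1 / 2) ^ (n / 64)) ^ 2 = 36 * (1 / (1 / 2) ^ (n / 64)) ^ 2 := by
        rw [one_div_pow ((1 / 2 : ℝ) ^ (n / 64)) 2]; ring
      have h1 : (4 : ℝ) / (1 / 2) ^ (n / 64) = 4 * (1 / (1 / 2) ^ (n / 64)) := by ring
      rw [h0, h1, hE, pow_add, mul_comm 2 (n / 64), pow_mul]
      have h2 : (1 : ℝ) ≤ 2 ^ (n / 64) := one_le_pow₀ (by norm_num)
      nlinarith
    have e4 : (1 / 4 : ℝ) ^ n = (1 / 2) ^ (2 * n) := by rw [pow_mul]; norm_num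
    rw [e1, e2, hB, e4]
    have t1 := aux2 (5 + 2 * (n / 64)) (n / 3) (n / 100 + 3) (by omega)
    have t2 := aux2 (1 + n / 64) (n / 32) (n / 100 + 3) (by omega)
    have t3 := aux2 (1 + n / 64) (n / 3) (n / 100 + 3) (by omega)
    have t4 := aux2 (6 + 2 * (n / 64)) (2 * n) (n / 100 + 3) (by omega)
    have t5 : ((36 : ℝ) / ((1 / 2) ^ (n / 64)) ^ 2 + 4 / (1 / 2) ^ (n / 64)) * (1 / 2) ^ (2 * n) ≤
        (1 / 2) ^ (n / 100 + 3) := le_trans (by gcongr) t4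
    have h8 : (1 / 2 : ℝ) ^ (n / 100 + 3) = (1 / 2) ^ (n / 100) / 8 := by
      rw [pow_add]; ring
    have h9 : (0 : ℝ) ≤ (1 / 2) ^ (n / 100) := by positivity
    rw [h8] at t1 t2 t3 t5
    rw [mul_add]
    nlinarith

end Pool.Agent.H99.AVH
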